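import Pool.Agent.H38.Msl.Defs

/-!
Handshake identity, bounded labels, removal of a leaf.
-/

namespace Pool.Agent.H38.Msl

open Finset

variable {V : Type} [Fintype V] {G : SimpleGraph V}

theorem hand (G : SimpleGraph V) (l : Sym2 V → ℕ) : ∑ v, col G l v = 2 * labelSum G l := by
  classical
  unfold col labelSum
  rw [← Fintype.sum_prod_type', ← sum_filter, mul_sum,
    ← sum_fiberwise_of_maps_to (t := G.edgeFinset) (g := fun p : V × V => s(p.1, p.2))
      (fun p hp => by simpa using hp)]
  refine sum_congr (by convert rfl) fun e he => ?_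
  induction e using Sym2.ind with
  | _ a b =>
  have hab : G.Adj a b := by simpa using he
  have : ({p : V × V | G.Adj p.1 p.2} : Finset _).filter (fun p => s(p.1, p.2) = s(a, b)) =
      {(a, b), (b, a)} := by
    ext ⟨x, y⟩
    simp only [mem_filter, mem_univ, true_and, Sym2.eq_iff, mem_insert, mem_singleton,
      Prod.mk.injEq]
    constructor
    · exact fun h => h.2
    · rintro (⟨rfl, rfl⟩ | ⟨rfl, rfl⟩)
      · exact ⟨hab, Or.inl ⟨rfl, rfl⟩⟩
      · exact ⟨hab.symm, Or.inr ⟨rfl, rfl⟩⟩
  rw [this, sum_pair (by simp [hab.ne])]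
  simp only [Sym2.eq_swap (a := b)]
  omega

theorem col_congr {l l' : Sym2 V → ℕ} {v : V} (h : ∀ w, G.Adj v w → l s(v, w) = l' s(v, w)) :
    col G l v = col G l' v := by
  unfold col
  refine sum_congr rfl fun w _ => ?_
  split_ifs with hw
  · exact h w hw
  · rfl

theorem col_split [DecidableEq V] (l : Sym2 V → ℕ) {a b : V} (h : G.Adj a b) :
    col G l a = l s(a, b) + ∑ w ∈ univ.erase b, (open Classical in
      if G.Adj a w then l s(a, w) else 0) := by
  unfold col
  rw [← add_sum_erase _ _ (mem_univ b), if_pos h]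

theorem col_upd [DecidableEq V] (l : Sym2 V → ℕ) {a b : V} (h : G.Adj a b) (t : ℕ) :
    col G (Function.update l s(a, b) t) a + l s(a, b) = col G l a + t := by
  rw [col_split _ h, col_split l h, Function.update_self, sum_congr rfl (g := fun w =>
    (open Classical in if G.Adj a w then l s(a, w) else 0)) fun w hw => ?_]
  · omega
  · rw [Function.update_of_ne]
    simpa [Sym2.eq_iff, h.ne, h.ne'] using hw

theorem col_upd' [DecidableEq V] (l : Sym2 V → ℕ) {a b v : V} (ha : v ≠ a) (hb : v ≠ b) (t : ℕ) :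
    col G (Function.update l s(a, b) t) v = col G l v :=
  col_congr fun w _ => Function.update_of_ne (by simp [Sym2.eq_iff, ha, hb]) _ _

theorem small (G : SimpleGraph V) (N : ℕ) : ∀ l, Proper G l → ∑ v, col G l v ≤ N →
    ∃ l', Proper G l' ∧ ∑ v, col G l' v ≤ N ∧
      ∀ u v, G.Adj u v → l' s(u, v) ≤ 2 * Fintype.card V + 1 := by
  classical
  induction N using Nat.strong_induction_on with
  | _ N ih =>
  intro l hl hN
  by_cases hb : ∀ u v, G.Adj u v → l s(u, v) ≤ 2 * Fintype.card V + 1
  · exact ⟨l, hl, hN, hb⟩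
  push Not at hb
  obtain ⟨a, b, hab, hlt⟩ := hb
  obtain ⟨t, ht, hF⟩ := exists_mem_notMem_of_card_lt_card
    (s := (univ.image fun v => col G l v + l s(a, b) - col G l a) ∪
      (univ.image fun v => col G l v + l s(a, b) - col G l b))
    (t := Icc 1 (2 * Fintype.card V + 1)) (by
      have h1 := card_image_le (s := univ) (f := fun v => col G l v + l s(a, b) - col G l a)
      have h2 := card_image_le (s := univ) (f := fun v => col G l v + l s(a, b) - col G l b)
      refine (card_union_le _ _).trans_lt ?_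
      simp only [card_univ, Nat.card_Icc] at *
      omega)
  simp only [mem_union, mem_image, mem_univ, true_and, not_or, not_exists, mem_Icc] at ht hF
  have e1 := col_upd l hab t
  have e2 := col_upd l hab.symm t
  rw [Sym2.eq_swap (a := b)] at e2
  have key : ∀ v, col G (Function.update l s(a, b) t) v ≤ col G l v := fun v => by
    by_cases ha : v = a
    · subst ha; omega
    by_cases hb : v = b
    · subst hb; omega
    exact (col_upd' l ha hb t).le
  have hs : ∑ v, col G (Function.update l s(a, b) t) v < ∑ v, col G l v :=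
    sum_lt_sum (fun v _ => key v) ⟨a, mem_univ _, by omega⟩
  suffices hp : Proper G (Function.update l s(a, b) t) by
    obtain ⟨l', h1, h2, h3⟩ := ih _ (hs.trans_le hN) _ hp le_rfl
    exact ⟨l', h1, by omega, h3⟩
  have half : ∀ u v, G.Adj u v → (u = a ∨ u = b) →
      col G (Function.update l s(a, b) t) u ≠ col G (Function.update l s(a, b) t) v := by
    intro u v huv hu
    have h0 := (hl u v huv).2
    have := huv.ne
    by_cases hv : v = a ∨ v = b
    · rcases hu with rfl | rfl <;> rcases hv with rfl | rfl <;> first | contradiction | omega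
    · push Not at hv
      rw [col_upd' l hv.1 hv.2]
      have := hF.1 v
      have := hF.2 v
      rcases hu with rfl | rfl <;> omega
  intro u v huv
  refine ⟨?_, ?_⟩
  · rw [Function.update_apply]
    split_ifs
    · exact ht.1
    · exact (hl u v huv).1
  · by_cases hu : u = a ∨ u = b
    · exact half u v huv hu
    by_cases hv : v = a ∨ v = b
    · exact (half v u huv.symm hv).symm
    push Not at hu hv
    rw [col_upd' l hu.1 hu.2, col_upd' l hv.1 hv.2]
    exact (hl u v huv).2

theorem sum_col_le {l : Sym2 V → ℕ} {B : ℕ} (h : ∀ u v, G.Adj u v → l s(u, v) ≤ B) :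
    ∑ v, col G l v ≤ Fintype.card V * (Fintype.card V * B) := by
  rw [← smul_eq_mul, ← card_univ]
  refine sum_le_card_nsmul _ _ _ fun v _ => ?_
  unfold col
  rw [← smul_eq_mul]
  refine sum_le_card_nsmul _ _ _ fun w _ => ?_
  split_ifs with hw
  · exact h v w hw
  · exact Nat.zero_le _

theorem leaf (h : G.IsAcyclic) {a b : V} (hab : G.Adj a b) :
    ∃ u v, G.Adj u v ∧ ∀ w, G.Adj u w → w = v := by
  classical
  let C := G.connectedComponentMk a
  have ha : a ∈ C := rfl
  have hb : b ∈ C := C.mem_supp_of_adj_mem_supp ha hab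
  haveI : Nontrivial C := ⟨⟨a, ha⟩, ⟨b, hb⟩, fun e => hab.ne (congrArg Subtype.val e)⟩
  obtain ⟨⟨u, hu⟩, hd⟩ := (h.isTree_connectedComponent C).exists_vert_degree_one_of_nontrivial
  obtain ⟨⟨v, hv⟩, h1, h2⟩ := SimpleGraph.degree_eq_one_iff_existsUnique_adj.1 hd
  refine ⟨u, v, (C.toSimpleGraph_adj hu hv).1 h1, fun w hw => ?_⟩
  have hw' : w ∈ C := C.mem_supp_of_adj_mem_supp hu hw
  exact congrArg Subtype.val (h2 ⟨w, hw'⟩ ((C.toSimpleGraph_adj hu hw').2 hw))

theorem nice_of (h : ∀ u v, G.Adj u v → ∃ w, w ≠ u ∧ w ≠ v ∧ (G.Adj u w ∨ G.Adj v w)) :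
    Nice G := fun C => ⟨fun f => by
  have h01 : C.toSimpleGraph.Adj (f.symm 0) (f.symm 1) := f.symm.map_adj_iff.2 (by simp)
  obtain ⟨w, h1, h2, h3⟩ := h _ _ ((C.toSimpleGraph_adj (f.symm 0).2 (f.symm 1).2).1 h01)
  have hw : w ∈ C := h3.elim (C.mem_supp_of_adj_mem_supp (f.symm 0).2)
    (C.mem_supp_of_adj_mem_supp (f.symm 1).2)
  have : f ⟨w, hw⟩ = 0 ∨ f ⟨w, hw⟩ = 1 := by omega
  rcases this with e | e
  · exact h1 (by rw [← e]; simp)
  · exact h2 (by rw [← e]; simp)⟩

end Pool.Agent.H38.Msl
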