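import Pool.Agent.H38.NP.Defs

/-!
Proper labellings of graphs with minimum label sum.
-/

namespace Pool.Agent.H38.Msl

open Pool.Agent.H38.NP

variable {V : Type} [Fintype V]

open Classical in
/-- The colour of `v`: the sum of the labels of the edges `vw` at `v`. -/
noncomputable def col (G : SimpleGraph V) (l : Sym2 V → ℕ) (v : V) : ℕ :=
  ∑ w, if G.Adj v w then l s(v, w) else 0

/-- `l` is a proper labelling of `G`: the labels of edges are positive integers and adjacent
vertices get different colours (the values of `l` outside the edges play no role). -/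
def Proper (G : SimpleGraph V) (l : Sym2 V → ℕ) : Prop :=
  ∀ u v, G.Adj u v → 1 ≤ l s(u, v) ∧ col G l u ≠ col G l v

open Classical in
/-- The label sum. -/
noncomputable def labelSum (G : SimpleGraph V) (l : Sym2 V → ℕ) : ℕ := ∑ e ∈ G.edgeFinset, l e

/-- The minimum label sum of a proper labelling (`0` if there is none). -/
noncomputable def mE (G : SimpleGraph V) : ℕ := sInf {s | ∃ l, Proper G l ∧ labelSum G l = s}

/-- No connected component is isomorphic to `K₂`. -/
def Nice (G : SimpleGraph V) : Prop :=
  ∀ C : G.ConnectedComponent, IsEmpty (C.toSimpleGraph ≃g SimpleGraph.completeGraph (Fin 2))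

/-- An instance: number of vertices, list of edges, bound `q` in binary. -/
abbrev Inst := ℕ × List (ℕ × ℕ) × Bin

/-- The graph of an instance. -/
def gr (I : Inst) : SimpleGraph (Fin I.1) := graphOf I.1 I.2.1

/-- MIN-SUM: the graph has a proper labelling with label sum at most `q`. -/
def MinSum (I : Inst) : Prop := ∃ l, Proper (gr I) l ∧ labelSum (gr I) l ≤ I.2.2.val

end Pool.Agent.H38.Msl
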