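import Pool.Agent.H38.Msl.Mem
import Pool.Agent.H38.NP.Col4
import Pool.Agent.H38.NP.TG

/-!
NP-hardness, from 4-colourability.
-/

namespace Pool.Agent.H38.Msl

open Pool.Agent.H38.NP Pool.Agent.H38.ER Finset

theorem transfer {V W : Type} [Fintype V] [Fintype W] {G : SimpleGraph V} {H : SimpleGraph W}
    (f : V ≃ W) (hf : ∀ u v, G.Adj u v ↔ H.Adj (f u) (f v)) {Q : ℕ}
    (h : ∃ l, Proper H l ∧ ∑ v, col H l v ≤ Q) : ∃ l, Proper G l ∧ ∑ v, col G l v ≤ Q := by
  obtain ⟨l, h1, h2⟩ := h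
  have c : ∀ v, col G (fun e => l (e.map f)) v = col H l (f v) := fun v =>
    Fintype.sum_equiv f _ _ fun w => by rw [hf]; rfl
  refine ⟨fun e => l (e.map f), fun u v huv => ?_, ?_⟩
  · rw [c, c]; exact h1 _ _ ((hf u v).1 huv)
  · rwa [Fintype.sum_equiv f _ _ c]

abbrev W (n : ℕ) := Fin n × Fin 4 × Fin (n + 1)

structure Gad {n : ℕ} (A : Fin n → Fin n → Bool) (H : SimpleGraph (W n)) : Prop where
  irr : ∀ v, A v v = false
  cc : ∀ v i w j, H.Adj (v, i, 0) (w, j, 0) ↔ (v = w ∧ i ≠ j) ∨ (i = j ∧ A v w = true)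
  cl : ∀ v i w j z, H.Adj (v, i, 0) (w, j, Fin.succ z) ↔ v = w ∧ i = j ∧ A v z = false
  ll : ∀ v i y w j z, ¬ H.Adj (v, i, Fin.succ y) (w, j, Fin.succ z)

variable {n : ℕ} {A : Fin n → Fin n → Bool} {H : SimpleGraph (W n)}

theorem sumW (g : W n → ℕ) :
    ∑ x, g x = ∑ v, ∑ i, g (v, i, 0) + ∑ v, ∑ i, ∑ z, g (v, i, Fin.succ z) := by
  simp only [Fintype.sum_prod_type, Fin.sum_univ_succ (n := n), sum_add_distrib]

theorem Gad.core (h : Gad A H) (l : Sym2 (W n) → ℕ) (v : Fin n) (i : Fin 4) :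
    col H l (v, i, 0) = ∑ j, (if i = j then 0 else l s((v, i, 0), (v, j, 0))) +
      ∑ w, cond (A v w) (l s((v, i, 0), (w, i, 0))) (l s((v, i, 0), (v, i, w.succ))) := by
  classical
  have e1 : ∀ w j, (if H.Adj (v, i, 0) (w, j, 0) then l s((v, i, 0), (w, j, 0)) else 0) =
      (if v = w then (if i = j then 0 else l s((v, i, 0), (v, j, 0))) else 0) +
      (if i = j then cond (A v w) (l s((v, i, 0), (w, i, 0))) 0 else 0) := fun w j => by
    rw [h.cc]
    by_cases a : v = w <;> by_cases b : i = j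
    · subst a b; simp [h.irr]
    · subst a; simp [b]
    · subst b; cases A v w <;> simp [a]
    · simp [a, b]
  have e2 : ∀ w j z, (if H.Adj (v, i, 0) (w, j, Fin.succ z) then
      l s((v, i, 0), (w, j, Fin.succ z)) else 0) = if v = w then (if i = j then
        cond (A v z) 0 (l s((v, i, 0), (v, i, z.succ))) else 0) else 0 := fun w j z => by
    rw [h.cl]
    by_cases a : v = w <;> by_cases b : i = j
    · subst a b; cases A v z <;> simp
    all_goals simp [a, b]
  rw [col, sumW]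
  simp only [e1, e2, sum_add_distrib, sum_ite_irrel, sum_const_zero, sum_ite_eq, mem_univ, if_true,
    add_assoc]
  rw [← sum_add_distrib]
  congr 1
  exact sum_congr rfl fun w _ => by cases A v w <;> simp

theorem Gad.leaf (h : Gad A H) (l : Sym2 (W n) → ℕ) (v : Fin n) (i : Fin 4) (z : Fin n) :
    col H l (v, i, z.succ) = cond (A v z) 0 (l s((v, i, 0), (v, i, z.succ))) := by
  classical
  have e2 : ∀ w j, (if H.Adj (v, i, Fin.succ z) (w, j, 0) then
      l s((v, i, Fin.succ z), (w, j, 0)) else 0) = if v = w then (if i = j then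
        cond (A v z) 0 (l s((v, i, 0), (v, i, z.succ))) else 0) else 0 := fun w j => by
    rw [H.adj_comm, h.cl]
    by_cases a : v = w <;> by_cases b : i = j
    · subst a b; rw [Sym2.eq_swap]; cases A v z <;> simp
    · simp [a, b, Ne.symm b]
    · simp [a, b, Ne.symm a]
    · simp [a, b, Ne.symm a]
  rw [col, sumW]
  simp [e2, h.ll]

def cnt (A : Fin n → Fin n → Bool) : ℕ := ∑ v, ∑ z, cond (A v z) 0 1

theorem Gad.sound (h : Gad A H) {l : Sym2 (W n) → ℕ} (hl : Proper H l)
    (hs : ∑ x, col H l x ≤ n * (4 * n + 18) + 4 * cnt A) :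
    ∃ k : Fin n → ℕ, (∀ v, k v < 4) ∧ ∀ v w, A v w = true → k v ≠ k w := by
  have h1 : ∀ v i, n + 3 ≤ col H l (v, i, 0) := fun v i => by
    rw [h.core, add_comm]
    refine add_le_add ?_ ?_
    · refine le_trans (by revert i; decide : 3 ≤ ∑ j : Fin 4, if i = j then 0 else 1)
        (sum_le_sum fun j _ => ?_)
      split_ifs with e
      · rfl
      · exact (hl _ _ ((h.cc ..).2 (Or.inl ⟨rfl, e⟩))).1
    · refine le_trans (by simp : n ≤ ∑ _w : Fin n, 1) (sum_le_sum fun w _ => ?_)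
      cases e : A v w
      · exact (hl _ _ ((h.cl ..).2 ⟨rfl, rfl, e⟩)).1
      · exact (hl _ _ ((h.cc ..).2 (Or.inr ⟨rfl, e⟩))).1
  have h2 : 4 * cnt A ≤ ∑ v, ∑ i, ∑ z, col H l (v, i, Fin.succ z) := by
    rw [cnt, mul_sum]
    refine sum_le_sum fun v _ => ?_
    refine le_trans (by simp : _ ≤ ∑ _i : Fin 4, ∑ z, cond (A v z) 0 1)
      (sum_le_sum fun i _ => sum_le_sum fun z _ => ?_)
    rw [h.leaf]
    cases e : A v z
    · exact (hl _ _ ((h.cl ..).2 ⟨rfl, rfl, e⟩)).1
    · rfl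
  have h3 : ∀ v, 4 * n + 18 ≤ ∑ i, col H l (v, i, 0) ∧
      (∑ i, col H l (v, i, 0) = 4 * n + 18 → col H l (v, 0, 0) ≤ n + 6) := fun v => by
    have d : ∀ i j, i ≠ j → col H l (v, i, 0) ≠ col H l (v, j, 0) := fun i j e =>
      (hl _ _ ((h.cc ..).2 (Or.inl ⟨rfl, e⟩))).2
    have := d 0 1 (by decide)
    have := d 0 2 (by decide)
    have := d 0 3 (by decide)
    have := d 1 2 (by decide)
    have := d 1 3 (by decide)
    have := d 2 3 (by decide)
    have := h1 v 0
    have := h1 v 1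
    have := h1 v 2
    have := h1 v 3
    rw [Fin.sum_univ_four]
    omega
  rw [sumW] at hs
  have h4 := (sum_eq_sum_iff_of_le (s := univ) fun v _ => (h3 v).1).1 (le_antisymm
    (sum_le_sum fun v _ => (h3 v).1) (by
      simp only [sum_const, card_univ, Fintype.card_fin, smul_eq_mul]
      omega))
  refine ⟨fun v => col H l (v, 0, 0) - (n + 3), fun v => ?_, fun v w e => ?_⟩
  · have := (h3 v).2 (h4 v (mem_univ _)).symm
    simp only
    omega
  · have := (hl _ _ ((h.cc v 0 w 0).2 (Or.inr ⟨rfl, e⟩))).2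
    have := h1 v 0
    have := h1 w 0
    simp only
    omega

def ex (a b : Fin 4) : ℕ := if a = b then 0 else if a = 3 then b.val else if b = 3 then a.val else 0

theorem Gad.compl (h : Gad A H) (k : Fin n → Fin 4) (hk : ∀ v w, A v w = true → k v ≠ k w) :
    ∃ l, Proper H l ∧ ∑ x, col H l x ≤ n * (4 * n + 18) + 4 * cnt A := by
  have sy : ∀ a b, ex a b = ex b a := by decide
  let l : Sym2 (W n) → ℕ := Sym2.lift ⟨fun x y => 1 + if x.1 = y.1 then
    ex (k x.1 + x.2.1) (k y.1 + y.2.1) else 0, fun x y => by simp only [eq_comm (a := x.1), sy]⟩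
  have c1 : ∀ v i, col H l (v, i, 0) = 3 + (k v + i).val + n := fun v i => by
    rw [h.core]
    congr 1
    · simp only [l, Sym2.lift_mk, if_true]
      generalize k v = a
      revert a i
      decide
    · refine Eq.trans (sum_congr rfl fun w _ => ?_) (by simp : ∑ _w : Fin n, 1 = n)
      cases e : A v w
      · simp [l, ex]
      · have : v ≠ w := fun f => by rw [f, h.irr] at e; cases e
        simp [l, this]
  have c2 : ∀ v i z, col H l (v, i, Fin.succ z) = cond (A v z) 0 1 := fun v i z => by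
    rw [h.leaf]
    simp [l, ex]
  refine ⟨l, fun x y hxy => ⟨Nat.le_add_right _ _, ?_⟩, ?_⟩
  · obtain ⟨v, i, y'⟩ := x
    obtain ⟨w, j, z⟩ := y
    induction y' using Fin.cases <;> induction z using Fin.cases
    · rw [c1, c1]
      intro e
      have e' : k v + i = k w + j := Fin.ext (by omega)
      rcases (h.cc ..).1 hxy with ⟨rfl, b⟩ | ⟨rfl, b⟩
      · exact b (add_left_cancel e')
      · exact hk v w b (add_right_cancel e')
    · rw [c1, c2]; cases A _ _ <;> simp <;> omega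
    · rw [c1, c2]; cases A _ _ <;> simp <;> omega
    · exact (h.ll _ _ _ _ _ _ hxy).elim
  · have : ∀ a : Fin 4, ∑ i, (3 + (a + i).val) = 18 := by decide
    rw [sumW]
    simp only [c1, c2, sum_add_distrib (g := fun _ => n), this]
    simp only [cnt, mul_sum, sum_const, card_univ, Fintype.card_fin, smul_eq_mul]
    exact le_of_eq (by ring)

theorem Gad.third (h : Gad A H) (x y : W n) (hxy : H.Adj x y) :
    ∃ w, w ≠ x ∧ w ≠ y ∧ (H.Adj x w ∨ H.Adj y w) := by
  have key : ∀ v i (y : W n), ∃ w, w ≠ (v, i, 0) ∧ w ≠ y ∧ H.Adj (v, i, 0) w := fun v i y => by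
    have a : i ≠ i + 1 := by revert i; decide
    have b : i ≠ i + 2 := by revert i; decide
    have c : i + 2 ≠ i + 1 := by revert i; decide
    by_cases e : y = (v, i + 1, 0)
    · exact ⟨(v, i + 2, 0), by simp [b.symm], by simp [e, c], (h.cc ..).2 (Or.inl ⟨rfl, b⟩)⟩
    · exact ⟨(v, i + 1, 0), by simp [a.symm], Ne.symm e, (h.cc ..).2 (Or.inl ⟨rfl, a⟩)⟩
  obtain ⟨v, i, y'⟩ := x
  obtain ⟨w, j, z⟩ := y
  induction y' using Fin.cases
  · obtain ⟨t, a, b, c⟩ := key v i (w, j, z)
    exact ⟨t, a, b, Or.inl c⟩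
  induction z using Fin.cases
  · obtain ⟨t, a, b, c⟩ := key w j (v, i, Fin.succ ‹_›)
    exact ⟨t, b, a, Or.inr c⟩
  · exact (h.ll _ _ _ _ _ _ hxy).elim

def nv (E : EL) : ℕ := (E.map fun e => e.1 + e.2).sum + 1

def vs (E : EL) : List T3 :=
  (List.range (nv E)).product ((List.range 4).product (List.range (nv E + 1)))

def rr (E : EL) (x y : T3) : Bool :=
  decide (x.2.2 = 0 ∧ (y.2.2 = 0 ∧ (x.1 = y.1 ∨ x.2.1 = y.2.1 ∧ adj E x.1 y.1 = true) ∨
    x.1 = y.1 ∧ x.2.1 = y.2.1 ∧ adj E x.1 (y.2.2 - 1) = false))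

def qq (E : EL) : ℕ := nv E * (2 * nv E + 9) + 2 * ((List.range (nv E)).map fun v =>
  ((List.range (nv E)).map fun z => cond (adj E v z) 0 1).sum).sum

def inst (E : EL) : Inst := ((vs E).length, tgE (vs E) (rr E) (0, 0, 0), ⟨qq E⟩)

theorem pt_inst : PT inst := by
  have h1 : PT vs := by unfold vs nv; fun_prop
  have h2 : PT fun E => tgE (vs E) (rr E) (0, 0, 0) := PT.tgE _ h1 (by unfold rr; fun_prop)
  have h3 : PT qq := by unfold qq nv; fun_prop
  unfold inst
  fun_prop

theorem hard : NPHardOn (fun I => Nice (gr I)) MinSum := by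
  refine (col4_nph.reduce inst pt_inst fun E hE => ?_).npHardOn
  obtain ⟨e, inj, rg, ad⟩ := tg_spec (Vs := vs E) (List.nodup_range.product
    (List.nodup_range.product List.nodup_range)) (rr E) (0, 0, 0)
  let f : W (nv E) → T3 := fun x => (x.1, x.2.1, x.2.2)
  have finj : Function.Injective f := fun x y h => by
    simp only [f, Prod.mk.injEq] at h
    exact Prod.ext (Fin.ext h.1) (Prod.ext (Fin.ext h.2.1) (Fin.ext h.2.2))
  have : ∀ x, ∃ u, e u = f x := fun x => (rg _).1 (by simp [vs, f, Nat.lt_succ_iff, Fin.is_le])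
  choose g hg using this
  have gb : Function.Bijective g := ⟨fun x y h => finj (by rw [← hg, h, hg]), fun u => by
    have := (rg (e u)).2 ⟨u, rfl⟩
    generalize hx : e u = x at this
    obtain ⟨a, b, c⟩ := x
    simp only [vs, List.pair_mem_product, List.mem_range] at this
    exact ⟨(⟨a, this.1⟩, ⟨b, this.2.1⟩, ⟨c, this.2.2⟩), inj (by rw [hg, hx])⟩⟩
  have sy : ∀ u v, adj E u v = adj E v u := fun u v => by simp only [adj, ne_comm, or_comm]
  have G : Gad (fun v w => adj E v w) ((gr (inst E)).comap g) := by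
    have ad' : ∀ x y, ((gr (inst E)).comap g).Adj x y ↔ TA (rr E) (f x) (f y) := fun x y => by
      rw [← hg, ← hg, ← ad]; rfl
    have ir : ∀ v, adj E v v = false := fun v => by simp [adj]
    refine ⟨fun v => ir v, fun v i w j => ?_, fun v i w j z => ?_, fun v i y w j z => ?_⟩ <;>
      simp only [ad', TA, rr, f, decide_eq_true_eq, Fin.val_zero, Fin.val_succ, ne_eq,
        Prod.mk.injEq, Fin.ext_iff, Nat.add_sub_cancel, sy w]
    · by_cases a : v.val = w.val
      · simp [a, ir]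
      · have b := Ne.symm a
        simp only [a, b, false_and, not_false_eq_true, true_and, false_or, or_false]
        rw [eq_comm (a := j.val), or_self]
    · simp
    · simp
  have q2 : nv E * (4 * nv E + 18) + 4 * cnt (fun v w : Fin (nv E) => adj E v w) = 2 * qq E := by
    simp only [qq, sum_rng, cnt]
    ring
  have ms : MinSum (inst E) ↔ ∃ l, Proper (gr (inst E)) l ∧
      ∑ v, col (gr (inst E)) l v ≤ 2 * qq E := by
    simp only [hand, MinSum]
    exact exists_congr fun l => and_congr_right fun _ =>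
      (Nat.mul_le_mul_left_iff (by norm_num)).symm
  have lt : ∀ p ∈ E, p.1 < nv E ∧ p.2 < nv E := fun p hp => by
    have := List.single_le_sum (l := E.map fun e => e.1 + e.2) (fun _ _ => Nat.zero_le _) _
      (List.mem_map_of_mem hp)
    unfold nv
    omega
  refine ⟨nice_of fun u v huv => ?_, ?_, fun h => ?_⟩
  · obtain ⟨x, rfl⟩ := gb.2 u
    obtain ⟨y, rfl⟩ := gb.2 v
    obtain ⟨w, a, b, c⟩ := G.third x y huv
    exact ⟨g w, gb.1.ne a, gb.1.ne b, c⟩
  · rintro ⟨c, hc⟩
    let cd : Bool × Bool → Fin 4 := fun p => cond p.1 (cond p.2 0 1) (cond p.2 2 3)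
    have ci : Function.Injective cd := by decide
    have := G.compl (fun v => cd (c v)) fun v w h => ci.ne (by
      simp only [adj, decide_eq_true_eq] at h
      exact h.2.elim (hc _) fun h => (hc _ h).symm)
    rw [q2] at this
    exact ms.2 (transfer (Equiv.ofBijective g gb).symm (fun u v => by
      simp only [SimpleGraph.comap_adj, Equiv.ofBijective_apply_symm_apply]) this)
  · obtain ⟨l, h1, h2⟩ := transfer (G := (gr (inst E)).comap g) (Equiv.ofBijective g gb)
      (fun u v => Iff.rfl) (ms.1 h)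
    obtain ⟨k, k1, k2⟩ := G.sound h1 (q2.symm ▸ h2)
    refine ⟨fun v => if hv : v < nv E then
      (decide (k ⟨v, hv⟩ % 2 = 0), decide (k ⟨v, hv⟩ / 2 = 0)) else default, fun p hp => ?_⟩
    have := k2 ⟨_, (lt p hp).1⟩ ⟨_, (lt p hp).2⟩ (by simp [adj, hE p hp, hp])
    have := k1 ⟨_, (lt p hp).1⟩
    have := k1 ⟨_, (lt p hp).2⟩
    simp only [dif_pos (lt p hp).1, dif_pos (lt p hp).2, ne_eq, Prod.mk.injEq, decide_eq_decide]
    omega

end Pool.Agent.H38.Msl
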