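import Pool.Agent.H38.Msl.Tree

/-!
Membership in NP.
-/

namespace Pool.Agent.H38.Msl

open Pool.Agent.H38.NP Pool.Agent.H38.ER Finset

def lab (w : List (List ℕ)) (u v : ℕ) : ℕ :=
  min ((w.getD u []).getD v 0) ((w.getD v []).getD u 0)

def cw (I : Inst) (w : List (List ℕ)) (u : ℕ) : ℕ :=
  ((List.range I.1).map fun v => cond (adj I.2.1 u v) (lab w u v) 0).sum

def ver (I : Inst) (w : List (List ℕ)) : Bool :=
  ((List.range I.1).all fun u => (List.range I.1).all fun v =>
    !adj I.2.1 u v || decide (1 ≤ lab w u v ∧ cw I w u ≠ cw I w v)) &&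
  decide ((Bin.mk (((List.range I.1).map (cw I w)).sum / 2)).val ≤ I.2.2.val)

theorem sum_rng (n : ℕ) (f : ℕ → ℕ) : ((List.range n).map f).sum = ∑ v : Fin n, f v := by
  rw [← List.sum_toFinset _ List.nodup_range, List.toFinset_range, ← Fin.sum_univ_eq_sum_range]

theorem ver_iff (I : Inst) (w : List (List ℕ)) (l : Sym2 (Fin I.1) → ℕ)
    (h : ∀ u v, (gr I).Adj u v → l s(u, v) = lab w u v) :
    ver I w = true ↔ Proper (gr I) l ∧ labelSum (gr I) l ≤ I.2.2.val := by
  have c : ∀ u : Fin I.1, cw I w u = col (gr I) l u := fun u => by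
    rw [cw, sum_rng]
    refine sum_congr rfl fun v _ => ?_
    split_ifs with hv
    · rw [adj_iff.1 hv, h u v hv]; rfl
    · rw [Bool.eq_false_iff.2 fun e => hv (adj_iff.2 e)]; rfl
  simp only [ver, sum_rng, c, hand, Bool.and_eq_true, List.all_eq_true, List.mem_range,
    Bool.or_eq_true, Bool.not_eq_eq_eq_not, Bool.not_true, decide_eq_true_eq]
  refine and_congr ⟨fun H u v huv => ?_, fun H u hu v hv => ?_⟩ (by omega)
  · rcases H u u.2 v v.2 with e | e
    · rw [adj_iff.1 huv] at e; cases e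
    · rwa [c, c, ← h u v huv] at e
  · cases e : adj I.2.1 u v
    · exact Or.inl rfl
    · have huv : (gr I).Adj ⟨u, hu⟩ ⟨v, hv⟩ := adj_iff.2 e
      have := H _ _ huv
      rw [h _ _ huv, ← c, ← c] at this
      exact Or.inr this

theorem inNP (C : Inst → Prop) : InNPOn C MinSum := by
  refine inNPOn_of_pt ver (by unfold ver cw lab; fun_prop)
    (B := fun I => I.1 * (2 * (I.1 * (2 * (2 * I.1 + 1) + 1)) + 1)) (PT.nat_pb (by fun_prop))
    (fun I _ ⟨l, h1, h2⟩ => ?_) fun I w _ h => ?_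
  · obtain ⟨l', a, b, -, d⟩ := small' I l h1
    refine ⟨List.ofFn fun u : Fin I.1 => List.ofFn fun v : Fin I.1 =>
      min (l' s(u, v)) (2 * I.1 + 1), ?_, (ver_iff I _ l' fun u v huv => ?_).2 ⟨a, b.trans h2⟩⟩
    · refine (sz_le_of_forall (B := I.1 * (2 * (2 * I.1 + 1) + 1)) fun r hr => ?_).trans (by simp)
      obtain ⟨u, rfl⟩ := List.mem_ofFn.1 hr
      refine (sz_le_of_forall (B := 2 * I.1 + 1) fun x hx => ?_).trans (by simp)
      obtain ⟨v, rfl⟩ := List.mem_ofFn.1 hx
      simp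
    · have := d u v huv
      simp [lab, List.getD_eq_getElem?_getD, Sym2.eq_swap (a := v), this]
  · exact ⟨Sym2.lift ⟨fun u v => lab w u v, fun u v => min_comm _ _⟩,
      (ver_iff I w _ fun u v _ => rfl).1 h⟩

end Pool.Agent.H38.Msl
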