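import Pool.Agent.H38.Msl.Basic

/-!
Removal of a leaf, with tables of states.
-/

namespace Pool.Agent.H38.Msl

open Finset

variable {V : Type} [Fintype V] [DecidableEq V]

abbrev T3 := ℕ × ℕ × ℕ

def Sol (G : SimpleGraph V) (R : V → T3 → Prop) (Q : ℕ) : Prop :=
  ∃ l : Sym2 V → ℕ, ∃ t : V → T3, (∀ u v, G.Adj u v → 1 ≤ l s(u, v) ∧ (t u).1 ≠ (t v).1) ∧
    (∀ v, R v (t v) ∧ (t v).1 = (t v).2.1 + col G l v) ∧ ∑ v, ((t v).1 + (t v).2.2) ≤ Q

def Mg (t e f : T3) : Prop :=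
  t.1 = e.1 ∧ f.2.1 < f.1 ∧ t.2.1 + f.2.1 = e.2.1 + f.1 ∧ t.2.2 = e.2.2 + f.2.2 + f.1 ∧ e.1 ≠ f.1

theorem sum2 {u v : V} (h : u ≠ v) (g : V → ℕ) :
    ∑ w, g w = g u + g v + ∑ w ∈ (univ.erase u).erase v, g w := by
  rw [← add_sum_erase _ _ (mem_univ u), ← add_sum_erase _ _ (a := v) (by simp [h.symm]),
    add_assoc]

theorem step {G G' : SimpleGraph V} {R R' : V → T3 → Prop} {Q : ℕ} {u v : V} (h : G.Adj u v)
    (h1 : ∀ w, G.Adj u w → w = v) (hG : ∀ a b, G'.Adj a b ↔ G.Adj a b ∧ a ≠ u ∧ b ≠ u)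
    (Ru : ∀ t, R' u t ↔ t = (0, 0, 0))
    (Rv : ∀ t, R' v t ↔ (t.1 ≤ Q ∧ t.2.1 ≤ Q ∧ t.2.2 ≤ Q) ∧ ∃ e, R v e ∧ ∃ f, R u f ∧ Mg t e f)
    (Rw : ∀ w, w ≠ u → w ≠ v → ∀ t, R' w t ↔ R w t) : Sol G R Q ↔ Sol G' R' Q := by
  classical
  have huv := h.ne
  have cu : ∀ l, col G l u = l s(u, v) := fun l => by
    rw [col_split l h, sum_eq_zero fun w hw => if_neg fun hw' => by simp [h1 w hw'] at hw]
    rfl
  have cu' : ∀ l, col G' l u = 0 := fun l => sum_eq_zero fun w _ => if_neg (by simp [hG])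
  have cv : ∀ l, col G l v = l s(u, v) + col G' l v := fun l => by
    rw [col_split l h.symm, Sym2.eq_swap, col, ← add_sum_erase _ _ (mem_univ u),
      if_neg (by simp [hG]), zero_add]
    congr 1
    refine sum_congr rfl fun w hw => ?_
    have : w ≠ u := by simpa using hw
    simp [hG, this, huv.symm]
  have cw : ∀ l w, w ≠ u → w ≠ v → col G l w = col G' l w := fun l w hu hv => by
    refine sum_congr rfl fun z _ => ?_
    by_cases hz : z = u
    · subst hz
      rw [if_neg fun e => hv (h1 w e.symm), if_neg (by simp [hG])]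
    · simp [hG, hu, hz]
  constructor
  · rintro ⟨l, t, a1, a2, a3⟩
    rw [sum2 huv] at a3
    have b1 := a1 u v h
    have b2 := (a2 u).2
    have b3 := (a2 v).2
    rw [cu] at b2
    rw [cv] at b3
    let t' : V → T3 := fun w => if w = u then (0, 0, 0) else if w = v then
      ((t v).1, (t v).2.1 + l s(u, v), (t v).2.2 + (t u).2.2 + (t u).1) else t w
    have tu : t' u = (0, 0, 0) := if_pos rfl
    have tv : t' v = ((t v).1, (t v).2.1 + l s(u, v), (t v).2.2 + (t u).2.2 + (t u).1) := by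
      simp [t', huv.symm]
    have tw : ∀ w, w ≠ u → w ≠ v → t' w = t w := fun w a b => by simp [t', a, b]
    have t1 : ∀ w, w ≠ u → (t' w).1 = (t w).1 := fun w a => by
      by_cases b : w = v
      · rw [b, tv]
      · rw [tw w a b]
    refine ⟨l, t', fun a b hab => ?_, fun w => ?_, ?_⟩
    · obtain ⟨c1, c2, c3⟩ := (hG a b).1 hab
      rw [t1 a c2, t1 b c3]
      exact a1 a b c1
    · by_cases a : w = u
      · rw [a, tu, cu', Ru]; exact ⟨rfl, rfl⟩
      by_cases b : w = v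
      · rw [b, tv, Rv]
        refine ⟨⟨?_, t v, (a2 v).1, t u, (a2 u).1, rfl, ?_, ?_, rfl, b1.2.symm⟩, ?_⟩ <;>
          (try simp only) <;> omega
      · rw [tw w a b, Rw w a b, ← cw l w a b]; exact a2 w
    · rw [sum2 huv, tu, tv, sum_congr rfl (g := fun w => (t w).1 + (t w).2.2) fun w hw => by
        rw [tw w (by simp at hw; exact hw.2) (by simp at hw; exact hw.1)]]
      simp only
      omega
  · rintro ⟨l, t, a1, a2, a3⟩
    rw [sum2 huv] at a3
    have b2 := (Ru _).1 (a2 u).1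
    obtain ⟨-, e, he, f, hf, m1, m2, m3, m4, m5⟩ := (Rv _).1 (a2 v).1
    have b3 := (a2 v).2
    let t' : V → T3 := fun w => if w = u then f else if w = v then e else t w
    have tu : t' u = f := if_pos rfl
    have tv : t' v = e := by simp [t', huv.symm]
    have tw : ∀ w, w ≠ u → w ≠ v → t' w = t w := fun w a b => by simp [t', a, b]
    have t1 : ∀ w, w ≠ u → (t' w).1 = (t w).1 := fun w a => by
      by_cases b : w = v
      · rw [b, tv, m1]
      · rw [tw w a b]
    have lu : ∀ a b, a ≠ u → b ≠ u →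
        Function.update l s(u, v) (f.1 - f.2.1) s(a, b) = l s(a, b) := fun a b ha hb =>
      Function.update_of_ne (by simp [Sym2.eq_iff, ha, hb]) _ _
    have cc : ∀ w, col G' (Function.update l s(u, v) (f.1 - f.2.1)) w = col G' l w := fun w =>
      col_congr fun z hz => lu w z ((hG _ _).1 hz).2.1 ((hG _ _).1 hz).2.2
    refine ⟨Function.update l s(u, v) (f.1 - f.2.1), t', fun a b hab => ?_, fun w => ?_, ?_⟩
    · by_cases ha : a = u
      · subst ha
        rw [h1 b hab, Function.update_self, tu, tv]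
        omega
      by_cases hb : b = u
      · subst hb
        rw [h1 a hab.symm, Sym2.eq_swap, Function.update_self, tu, tv]
        omega
      rw [lu a b ha hb, t1 a ha, t1 b hb]
      exact a1 a b ((hG a b).2 ⟨hab, ha, hb⟩)
    · by_cases a : w = u
      · rw [a, tu, cu, Function.update_self]; exact ⟨hf, by omega⟩
      by_cases b : w = v
      · rw [b, tv, cv, Function.update_self, cc]; exact ⟨he, by omega⟩
      · rw [tw w a b, ← Rw w a b, cw _ w a b, cc]; exact a2 w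
    · rw [sum2 huv, tu, tv, sum_congr rfl (g := fun w => (t w).1 + (t w).2.2) fun w hw => by
        rw [tw w (by simp at hw; exact hw.2) (by simp at hw; exact hw.1)]]
      omega

theorem start {G : SimpleGraph V} {R : V → T3 → Prop} {Q : ℕ}
    (hR : ∀ v t, R v t ↔ t.1 ≤ Q ∧ t.2 = (0, 0)) :
    Sol G R Q ↔ ∃ l, Proper G l ∧ ∑ v, col G l v ≤ Q := by
  constructor
  · rintro ⟨l, t, a1, a2, a3⟩
    have e : ∀ v, (t v).1 = col G l v ∧ (t v).2.2 = 0 := fun v => by
      have := ((hR _ _).1 (a2 v).1).2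
      have := (a2 v).2
      simp_all
    refine ⟨l, fun u v h => ?_, ?_⟩
    · rw [← (e u).1, ← (e v).1]; exact a1 u v h
    · simpa [e] using a3
  · rintro ⟨l, a1, a2⟩
    refine ⟨l, fun v => (col G l v, 0, 0), a1, fun v => ⟨(hR _ _).2 ⟨?_, rfl⟩, by simp⟩, a2⟩
    exact (single_le_sum (f := col G l) (fun _ _ => Nat.zero_le _) (mem_univ v)).trans a2

theorem stop {G : SimpleGraph V} {R : V → T3 → Prop} {Q : ℕ} (hG : ∀ u v, ¬ G.Adj u v) :
    Sol G R Q ↔ ∃ t : V → T3, (∀ v, R v (t v) ∧ (t v).1 = (t v).2.1) ∧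
      ∑ v, ((t v).1 + (t v).2.2) ≤ Q := by
  have c : ∀ l v, col G l v = 0 := fun l v => sum_eq_zero fun w _ => if_neg (hG _ _)
  constructor
  · rintro ⟨l, t, -, a2, a3⟩
    exact ⟨t, by simpa [c] using a2, a3⟩
  · rintro ⟨t, a2, a3⟩
    exact ⟨fun _ => 0, t, fun u v h => (hG u v h).elim, by simpa [c] using a2, a3⟩

end Pool.Agent.H38.Msl
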