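import Pool.Agent.H38.Msl.Step
import Pool.Agent.H38.NP.Graphs
import Pool.Agent.H38.ER.Big

/-!
The polynomial-time algorithm for forests.
-/

namespace Pool.Agent.H38.Msl

open Pool.Agent.H38.NP Pool.Agent.H38.ER Finset

instance : Dec Bin := ⟨fun x => ⟨bval x.val⟩, pt_ofBits (PT.bval PT.id'), fun x => by
  simp [raw, enc, bval_bits]⟩

abbrev EL := List (ℕ × ℕ)
abbrev TL := List (ℕ × T3)

def adj (E : EL) (u v : ℕ) : Bool := decide (u ≠ v ∧ ((u, v) ∈ E ∨ (v, u) ∈ E))

def lf (n : ℕ) (E : EL) : Option (ℕ × ℕ) :=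
  ((List.range n).product (List.range n)).find? fun p =>
    adj E p.1 p.2 && (List.range n).all fun w => !adj E p.1 w || decide (w = p.2)

def PP (n Q : ℕ) : TL := (List.range n).product ((List.range (Q + 1)).product
  ((List.range (Q + 1)).product (List.range (Q + 1))))

instance (t e f : T3) : Decidable (Mg t e f) := by unfold Mg; infer_instance

def upd (R : TL) (u v : ℕ) (x : ℕ × T3) : Bool :=
  if x.1 = u then decide (x.2 = (0, 0, 0)) else if x.1 = v then
    R.any fun e => decide (e.1 = v) && R.any fun f => decide (f.1 = u) && decide (Mg x.2 e.2 f.2)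
  else decide (x ∈ R)

def stp (a : ℕ × EL × ℕ) (S : EL × TL) : EL × TL :=
  (lf a.1 S.1).elim S fun p => (S.1.filter fun e => decide (e.1 ≠ p.1 ∧ e.2 ≠ p.1),
    (PP a.1 a.2.2).filter (upd S.2 p.1 p.2))

def ini (a : ℕ × EL × ℕ) : EL × TL :=
  (a.2.1, (PP a.1 a.2.2).filter fun x => decide (x.2.2 = (0, 0)))

def run (a : ℕ × EL × ℕ) : EL × TL := (stp a)^[a.2.1.length] (ini a)

def mn (Q : ℕ) (R : TL) (v : ℕ) : ℕ := (List.range (Q + 1)).findIdx fun k =>
  R.any fun e => decide (e.1 = v ∧ e.2.1 = e.2.2.1 ∧ e.2.1 + e.2.2.2 = k)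

def dcd (a : ℕ × EL × ℕ) : Bool :=
  decide (((List.range a.1).map (mn a.2.2 (run a).2)).sum ≤ a.2.2)

variable {α : Type} [Enc α]

@[fun_prop] theorem pt_adj {E : α → EL} {u v : α → ℕ} (hE : PT E) (hu : PT u) (hv : PT v) :
    PT fun a => adj (E a) (u a) (v a) := by unfold adj; fun_prop

@[fun_prop] theorem pt_lf {E : α → EL} {n : α → ℕ} (hn : PT n) (hE : PT E) :
    PT fun a => lf (n a) (E a) := by unfold lf; fun_prop

@[fun_prop] theorem pt_PP {n Q : α → ℕ} (hn : PT n) (hQ : PT Q) :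
    PT fun a => PP (n a) (Q a) := by unfold PP; fun_prop

@[fun_prop] theorem pt_Mg {t e f : α → T3} (ht : PT t) (he : PT e) (hf : PT f) :
    PT fun a => decide (Mg (t a) (e a) (f a)) := by unfold Mg; fun_prop

@[fun_prop] theorem pt_upd {R : α → TL} {u v : α → ℕ} {x : α → ℕ × T3} (hR : PT R) (hu : PT u)
    (hv : PT v) (hx : PT x) : PT fun a => upd (R a) (u a) (v a) (x a) := by unfold upd; fun_prop

theorem sub (a : ℕ × EL × ℕ) (i : ℕ) : ((stp a)^[i] (ini a)).1.Sublist a.2.1 ∧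
    ((stp a)^[i] (ini a)).2.Sublist (PP a.1 a.2.2) := by
  induction i with
  | zero => exact ⟨.refl _, List.filter_sublist⟩
  | succ i ih =>
    rw [Function.iterate_succ_apply']
    generalize (stp a)^[i] (ini a) = S at ih
    unfold stp
    cases lf a.1 S.1 with
    | none => exact ih
    | some p => exact ⟨List.filter_sublist.trans ih.1, List.filter_sublist⟩

theorem pt_run : PT run := by
  refine PT.iterate (step := stp) (by unfold stp; fun_prop) (by fun_prop) (by unfold ini; fun_prop)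
    (B := fun a => 2 * sz a.2.1 + 1 + sz (PP a.1 a.2.2))
    (PT.nat_pb (by fun_prop)) fun a i _ => ?_
  have h1 := sz_le_of_sublist (sub a i).1
  have h2 := sz_le_of_sublist (sub a i).2
  rw [sz_prod]
  omega

theorem pt_dcd : PT dcd := by
  have := pt_run
  unfold dcd mn
  fun_prop

theorem adj_iff {n : ℕ} {E : EL} {u v : Fin n} : (graphOf n E).Adj u v ↔ adj E u v = true := by
  simp [graphOf_adj, adj, Fin.ext_iff]

theorem mem_PP {n Q : ℕ} {v : ℕ} {t : T3} :
    (v, t) ∈ PP n Q ↔ v < n ∧ t.1 ≤ Q ∧ t.2.1 ≤ Q ∧ t.2.2 ≤ Q := by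
  obtain ⟨a, b, c⟩ := t
  simp [PP, Nat.lt_succ_iff]

def SolS (a : ℕ × EL × ℕ) (S : EL × TL) : Prop :=
  Sol (graphOf a.1 S.1) (fun v t => (v.val, t) ∈ S.2) a.2.2

theorem stp_sol (a : ℕ × EL × ℕ) (S : EL × TL) (hS : S.2.Sublist (PP a.1 a.2.2)) :
    (SolS a S ↔ SolS a (stp a S)) ∧
      ((stp a S).1.length < S.1.length ∨ lf a.1 S.1 = none ∧ stp a S = S) := by
  unfold stp
  cases h : lf a.1 S.1 with
  | none => exact ⟨Iff.rfl, Or.inr ⟨rfl, rfl⟩⟩
  | some p =>
    obtain ⟨u, v⟩ := p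
    have h1 := List.mem_of_find?_eq_some h
    have h2 := List.find?_some h
    simp only [List.pair_mem_product, List.mem_range, Bool.and_eq_true, List.all_eq_true,
      Bool.or_eq_true, Bool.not_eq_eq_eq_not, Bool.not_true, decide_eq_true_eq] at h1 h2
    have huv : u ≠ v := by have := h2.1; simp only [adj, decide_eq_true_eq] at this; exact this.1
    refine ⟨step (u := ⟨u, h1.1⟩) (v := ⟨v, h1.2⟩) (adj_iff.2 h2.1) (fun w hw => ?_)
      (fun x y => ?_) (fun t => ?_) (fun t => ?_) (fun w a b t => ?_), Or.inl ?_⟩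
    · rcases h2.2 w w.2 with e | e
      · rw [adj_iff.1 hw] at e; cases e
      · exact Fin.ext e
    · simp only [graphOf_adj, Option.elim, List.mem_filter, decide_eq_true_eq, ne_eq, Fin.ext_iff]
      tauto
    · simp only [Option.elim, List.mem_filter, mem_PP, upd, if_true, decide_eq_true_eq, h1.1]
      exact ⟨fun h => h.2, fun h => by simp [h]⟩
    · simp only [Option.elim, List.mem_filter, mem_PP, upd, if_true, h1.2, huv.symm, if_false,
        List.any_eq_true, Bool.and_eq_true, decide_eq_true_eq, true_and]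
      refine and_congr_right fun _ => ⟨?_, ?_⟩
      · rintro ⟨⟨_, e⟩, he, rfl, ⟨_, f⟩, hf, rfl, m⟩
        exact ⟨e, he, f, hf, m⟩
      · rintro ⟨e, he, f, hf, m⟩
        exact ⟨_, he, rfl, _, hf, rfl, m⟩
    · have a' : w.val ≠ u := fun e => a (Fin.ext e)
      have b' : w.val ≠ v := fun e => b (Fin.ext e)
      simp only [Option.elim, List.mem_filter, upd, a', b', if_false, decide_eq_true_eq]
      exact ⟨fun h => h.2, fun h => ⟨hS.subset h, h⟩⟩
    · have := h2.1
      simp only [adj, decide_eq_true_eq] at this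
      refine List.length_filter_lt_length_iff_exists.2 ?_
      rcases this.2 with e | e <;> exact ⟨_, e, by simp⟩

theorem run_sol (a : ℕ × EL × ℕ) (i : ℕ) : (SolS a (ini a) ↔ SolS a ((stp a)^[i] (ini a))) ∧
    (((stp a)^[i] (ini a)).1.length + i ≤ a.2.1.length ∨
      lf a.1 ((stp a)^[i] (ini a)).1 = none) := by
  induction i with
  | zero => exact ⟨Iff.rfl, Or.inl le_rfl⟩
  | succ i ih =>
    have h := stp_sol a _ (sub a i).2
    rw [Function.iterate_succ_apply']
    refine ⟨ih.1.trans h.1, ?_⟩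
    rcases h.2 with e | e
    · rcases ih.2 with f | f
      · exact Or.inl (by omega)
      · simp [stp, f] at e
    · exact Or.inr (by rw [e.2]; exact e.1)

theorem no_adj (a : ℕ × EL × ℕ) (h : (graphOf a.1 a.2.1).IsAcyclic) (x y : Fin a.1) :
    ¬ (graphOf a.1 (run a).1).Adj x y := fun hxy => by
  have hs : (run a).1.Sublist a.2.1 := (sub a _).1
  have hA : (graphOf a.1 (run a).1).IsAcyclic := h.anti fun u v huv => by
    rw [graphOf_adj] at huv ⊢
    exact ⟨huv.1, huv.2.imp (fun e => hs.subset e) fun e => hs.subset e⟩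
  rcases (run_sol a a.2.1.length).2 with e | e
  · have : (run a).1 = [] := List.length_eq_zero_iff.1 (by unfold run; omega)
    simp [this, graphOf_adj] at hxy
  · obtain ⟨u, v, h1, h2⟩ := leaf hA hxy
    refine List.find?_eq_none.1 e (u, v) (by simp) ?_
    simp only [Bool.and_eq_true, List.all_eq_true, List.mem_range, Bool.or_eq_true,
      Bool.not_eq_eq_eq_not, Bool.not_true, decide_eq_true_eq]
    refine ⟨adj_iff.1 h1, fun w hw => ?_⟩
    cases hh : adj ((stp a)^[a.2.1.length] (ini a)).1 u w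
    · exact Or.inl rfl
    · exact Or.inr (congrArg Fin.val (h2 ⟨w, hw⟩ (adj_iff.2 hh)))

theorem dcd_iff (a : ℕ × EL × ℕ) (h : (graphOf a.1 a.2.1).IsAcyclic) :
    dcd a = true ↔ ∃ l, Proper (graphOf a.1 a.2.1) l ∧ ∑ v, col (graphOf a.1 a.2.1) l v ≤ a.2.2 := by
  have e0 : SolS a (ini a) ↔ _ := start (G := graphOf a.1 a.2.1) fun v t => by
    simp only [ini, List.mem_filter, mem_PP, decide_eq_true_eq, v.2, true_and]
    exact ⟨fun h => ⟨h.1.1, h.2⟩, fun h => ⟨by simp [h], h.2⟩⟩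
  have e1 : SolS a (run a) ↔ _ := stop (no_adj a h)
  rw [← e0, (run_sol a a.2.1.length).1, show (stp a)^[a.2.1.length] (ini a) = run a from rfl, e1,
    dcd, decide_eq_true_eq, ← List.sum_toFinset _ List.nodup_range, List.toFinset_range,
    ← Fin.sum_univ_eq_sum_range]
  generalize (run a).2 = R
  generalize a.2.2 = Q
  constructor
  · intro hs
    have : ∀ v : Fin a.1, ∃ t : T3, ((v.val, t) ∈ R ∧ t.1 = t.2.1) ∧ t.1 + t.2.2 = mn Q R v := by
      intro v
      have h1 : mn Q R v < (List.range (Q + 1)).length := by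
        have := (single_le_sum (f := fun v : Fin a.1 => mn Q R v) (fun _ _ => Nat.zero_le _)
          (mem_univ v)).trans hs
        simpa [Nat.lt_succ_iff] using this
      have h2 := List.findIdx_getElem (w := h1)
      simp only [List.getElem_range, List.any_eq_true, decide_eq_true_eq] at h2
      obtain ⟨⟨_, t⟩, he, rfl, m⟩ := h2
      exact ⟨t, ⟨he, m.1⟩, m.2⟩
    choose t ht using this
    exact ⟨t, fun v => (ht v).1, by simpa [fun v => (ht v).2] using hs⟩
  · rintro ⟨t, h1, h2⟩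
    refine le_trans (sum_le_sum fun v _ => ?_) h2
    by_contra hc
    have h3 := List.not_of_lt_findIdx (not_le.1 hc)
    simp only [List.getElem_range, List.any_eq_false, decide_eq_true_eq] at h3
    exact h3 _ (h1 v).1 ⟨rfl, (h1 v).2, rfl⟩

def KK (n : ℕ) : ℕ := n * (n * (2 * n + 1))

theorem small' (I : Inst) (l) (hl : Proper (gr I) l) : ∃ l', Proper (gr I) l' ∧
    labelSum (gr I) l' ≤ labelSum (gr I) l ∧ labelSum (gr I) l' ≤ KK I.1 ∧
      ∀ u v, (gr I).Adj u v → l' s(u, v) ≤ 2 * I.1 + 1 := by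
  obtain ⟨l', h1, h2, h3⟩ := small _ _ l hl le_rfl
  have := sum_col_le h3
  simp only [hand, Fintype.card_fin] at *
  exact ⟨l', h1, by omega, by unfold KK; omega, h3⟩

theorem dcd_iff' (I : Inst) (h : (gr I).IsAcyclic) (k : ℕ) :
    dcd (I.1, I.2.1, 2 * k) = true ↔ ∃ l, Proper (gr I) l ∧ labelSum (gr I) l ≤ k := by
  refine (dcd_iff (I.1, I.2.1, 2 * k) h).trans
    (exists_congr fun l => and_congr_right fun _ => ?_)
  rw [hand]
  exact Nat.mul_le_mul_left_iff (by norm_num)

theorem forest_P : InPOn (fun I => (gr I).IsAcyclic) MinSum := by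
  have := pt_dcd
  refine inPOn_of_pt (fun I => (List.range (KK I.1 + 1)).any fun k =>
    decide ((Bin.mk k).val ≤ I.2.2.val) && dcd (I.1, I.2.1, 2 * k)) (by unfold KK; fun_prop)
    fun I h => ?_
  simp only [List.any_eq_true, List.mem_range, Bool.and_eq_true, decide_eq_true_eq, dcd_iff' I h]
  constructor
  · rintro ⟨l, h1, h2⟩
    obtain ⟨l', a, b, c, -⟩ := small' I l h1
    exact ⟨_, Nat.lt_succ_of_le c, b.trans h2, l', a, le_rfl⟩
  · rintro ⟨k, -, h1, l, h2, h3⟩
    exact ⟨l, h2, h3.trans h1⟩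

theorem forest_mE : PolyTimeOn (fun p : ℕ × List (ℕ × ℕ) => (graphOf p.1 p.2).IsAcyclic)
    fun p => Bin.mk (mE (graphOf p.1 p.2)) := by
  have := pt_dcd
  obtain ⟨f, hf, e⟩ := PT.polyTimeOn (g := fun p : ℕ × List (ℕ × ℕ) => Bin.mk
    (((List.range (KK p.1 + 1)).find? fun k => dcd (p.1, p.2, 2 * k)).getD 0))
    (by unfold KK; fun_prop) fun p => (graphOf p.1 p.2).IsAcyclic
  refine ⟨f, hf, fun p h => (e p h).trans (congrArg (fun k => enc (Bin.mk k)) ?_)⟩
  have key := dcd_iff' (p.1, p.2, ⟨0⟩) h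
  simp only [gr] at key
  by_cases hx : {s | ∃ l, Proper (graphOf p.1 p.2) l ∧ labelSum (graphOf p.1 p.2) l = s}.Nonempty
  · obtain ⟨l, h1, h2⟩ := Nat.sInf_mem hx
    obtain ⟨l', a, -, c, -⟩ := small' (p.1, p.2, ⟨0⟩) l h1
    have le : ∀ l, Proper (graphOf p.1 p.2) l → mE (graphOf p.1 p.2) ≤ labelSum _ l :=
      fun l hl => Nat.sInf_le ⟨l, hl, rfl⟩
    have : (List.range (KK p.1 + 1)).find? (fun k => dcd (p.1, p.2, 2 * k)) =
        some (mE (graphOf p.1 p.2)) := by
      refine List.find?_range_eq_some.2 ⟨(key _).2 ⟨l, h1, h2.le⟩,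
        List.mem_range.2 (Nat.lt_succ_of_le ((le l' a).trans c)), fun j hj => ?_⟩
      cases hd : dcd (p.1, p.2, 2 * j)
      · rfl
      · obtain ⟨l, h1, h2⟩ := (key _).1 hd
        exact absurd ((le l h1).trans h2) (not_le.2 hj)
    rw [this]
    rfl
  · rw [List.find?_eq_none.2 fun k _ hk => ?_, mE, Set.not_nonempty_iff_eq_empty.1 hx]
    · simp
    · obtain ⟨l, h1, -⟩ := (key _).1 hk
      exact hx ⟨_, l, h1, rfl⟩

end Pool.Agent.H38.Msl
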